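import Pool.Agent.H68.MB.Gen

/-!
# The groups `K(𝔽_p[ℤ²])`: infinitely many examples
-/

set_option autoImplicit false

namespace Pool.Agent.H68.MB

open Monoid Pool.Agent.H659R3.MorseLim

noncomputable section

/-- The group ring of `ℤ²` over `ℤ/p`. -/
abbrev RR (p : ℕ) : Type := AddMonoidAlgebra (ZMod p) (ℤ × ℤ)

/-- The unit of the group ring given by an element of `ℤ²`. -/
def un (p : ℕ) (v : ℤ × ℤ) : (RR p)ˣ where
  val := AddMonoidAlgebra.single v 1
  inv := AddMonoidAlgebra.single (-v) 1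
  val_inv := by
    rw [AddMonoidAlgebra.single_mul_single, add_neg_cancel, mul_one]; rfl
  inv_val := by
    rw [AddMonoidAlgebra.single_mul_single, neg_add_cancel, mul_one]; rfl

/-- `un` as a homomorphism -/
def unHom (p : ℕ) : Multiplicative (ℤ × ℤ) →* (RR p)ˣ where
  toFun v := un p v.toAdd
  map_one' := Units.ext rfl
  map_mul' v w := Units.ext (by
    change AddMonoidAlgebra.single (v.toAdd + w.toAdd) (1 : ZMod p) =
      AddMonoidAlgebra.single v.toAdd 1 * AddMonoidAlgebra.single w.toAdd 1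
    rw [AddMonoidAlgebra.single_mul_single, mul_one])

/-- the two units `s`, `t` of `𝔽_p[s^±, t^±]` -/
abbrev uα (p : ℕ) : (RR p)ˣ := un p (1, 0)
abbrev uβ (p : ℕ) : (RR p)ˣ := un p (0, 1)

theorem un_pow (p : ℕ) (x y : ℤ) : (uα p) ^ x * (uβ p) ^ y = un p (x, y) := by
  have h1 : uα p = unHom p (.ofAdd (1, 0)) := rfl
  have h2 : uβ p = unHom p (.ofAdd (0, 1)) := rfl
  have h3 : un p (x, y) = unHom p (.ofAdd (x, y)) := rfl
  rw [h1, h2, h3, ← map_zpow (unHom p), ← map_zpow (unHom p), ← map_mul (unHom p)]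
  congr 1
  apply Multiplicative.toAdd.injective
  rw [toAdd_mul, toAdd_zpow, toAdd_zpow]
  ext <;> simp

theorem reg (p : ℕ) [Fact p.Prime] : Aff.Reg (uα p) (uβ p) := by
  intro x y hxy c hc
  rcases mul_eq_zero.1 hc with h | h
  · exfalso
    rw [un_pow] at h
    have h1 : (1 : RR p) = AddMonoidAlgebra.single (x, y) 1 := sub_eq_zero.1 h
    have h2 : AddMonoidAlgebra.single ((0, 0) : ℤ × ℤ) (1 : ZMod p) =
      AddMonoidAlgebra.single (x, y) 1 := h1
    have h3 := congrArg (fun f : RR p => f.coeff (0, 0)) h2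
    simp only [AddMonoidAlgebra.coeff_single] at h3
    rw [Finsupp.single_eq_same, Finsupp.single_apply, if_neg hxy] at h3
    exact one_ne_zero h3
  · exact h

/-- The data of the group `K_p`. -/
def DP (p : ℕ) [Fact p.Prime] : KData (Aff.KK (RR p) (uα p) (uβ p)) := Aff.dataKK (reg p)

theorem DP_pow (p : ℕ) [Fact p.Prime] : (DP p).a ^ p = 1 := by
  have h : ∀ n : ℕ, ((⟨1, 0, 0⟩ : Aff (RR p) (uα p) (uβ p)) ^ n) = ⟨(n : RR p), 0, 0⟩ := by
    intro n
    induction n with
    | zero =>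
      rw [pow_zero]
      exact Aff.ext (by simp) (by simp) (by simp)
    | succ n ih =>
      rw [pow_succ, ih]
      exact Aff.ext (by simp [Aff.u_zero]) (by simp) (by simp)
  apply Subtype.ext
  change ((⟨1, 0, 0⟩ : Aff (RR p) (uα p) (uβ p)) ^ p) = 1
  rw [h]
  refine Aff.ext ?_ rfl rfl
  change ((p : ℕ) : RR p) = 0
  rw [← map_natCast (algebraMap (ZMod p) (RR p)) p, ZMod.natCast_self, map_zero]

/-- the augmentation -/
def aug (p : ℕ) : RR p →+* ZMod p :=
  (AddMonoidAlgebra.lift (ZMod p) (ZMod p) (ℤ × ℤ) 1 : RR p →ₐ[ZMod p] ZMod p)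

theorem aug_un (p : ℕ) (v : ℤ × ℤ) : aug p (un p v : RR p) = 1 := by
  change (AddMonoidAlgebra.lift (ZMod p) (ZMod p) (ℤ × ℤ) 1 : RR p →ₐ[ZMod p] ZMod p)
    (AddMonoidAlgebra.single v 1) = 1
  rw [AddMonoidAlgebra.lift_single]
  simp

/-- the homomorphism `K_p → ℤ/p` -/
def homK (p : ℕ) : Aff (RR p) (uα p) (uβ p) →* Multiplicative (ZMod p) where
  toFun k := .ofAdd (aug p k.c)
  map_one' := by
    change Multiplicative.ofAdd (aug p 0) = 1
    rw [map_zero]; rfl
  map_mul' k l := by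
    change Multiplicative.ofAdd (aug p (k.c + Aff.u (uα p) (uβ p) k.x k.y * l.c)) = _
    rw [map_add, map_mul, Aff.u, un_pow, aug_un, one_mul]
    rfl

theorem detects (p : ℕ) [Fact p.Prime] :
    Detects (FP (Aff.KK (RR p) (uα p) (uβ p))) p := by
  refine ⟨ι true (DP p).a, CoprodI.lift fun _ => (homK p).comp (Subgroup.subtype _), ?_, ?_⟩
  · rw [← map_pow, DP_pow, map_one]
  · rw [CoprodI.lift_of]
    change Multiplicative.ofAdd (aug p 1) ≠ 1
    rw [map_one]
    intro h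
    have h1 : (1 : ZMod p) = 0 := congrArg Multiplicative.toAdd h
    exact one_ne_zero h1

theorem not_iso (p q : ℕ) [Fact p.Prime] [Fact q.Prime] (hpq : p ≠ q) :
    IsEmpty (FP (Aff.KK (RR p) (uα p) (uβ p)) ≃* FP (Aff.KK (RR q) (uα q) (uβ q))) := by
  refine ⟨fun e => ?_⟩
  have h1 := detects_congr e p (detects p)
  exact not_detects (DP q) ((Nat.coprime_primes Fact.out Fact.out).2 hpq)
    (Nat.Prime.ne_zero Fact.out) (DP_pow q) h1

end

end Pool.Agent.H68.MB
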