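import Pool.Agent.H68.MB.Ring

/-!
# `P * P` in `K * K`: the general statement, and an invariant of `K * K`
-/

set_option autoImplicit false

namespace Pool.Agent.H68.MB

open Monoid Pool.Agent.H659R3.MorseLim

/-- The subgroup `H` of `G` is a free product of two copies of `ℤ²`, a retract of `G`, malnormal
(hence almost malnormal), `G` and `H` are finitely generated, the Morse boundary of `H` is not
empty, the limit set of `H` in the Morse boundary of `G` is the Morse boundary of `H`, and `H` is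
not hyperbolically embedded in `G`. -/
def Counter {G : Type} [Group G] (H : Subgroup G) : Prop :=
  Nonempty (H ≃* FP (Multiplicative (ℤ × ℤ))) ∧ (∃ r : G →* H, ∀ h : H, r h = h) ∧
    (∀ g : G, g ∉ H → ∀ x ∈ H, g⁻¹ * x * g ∈ H → x = 1) ∧
    ∃ (A : FinGen G) (B : FinGen H), AlmostMalnormal H ∧ Nonempty (MorseBoundary B) ∧
      LimitSetIsMorseBoundary A H B ∧ ¬ HyperbolicallyEmbedded H

variable {K : Type} [Group K] (D : KData K)

/-- the map `P * P → K * K` -/
def fs : FP (Multiplicative (ℤ × ℤ)) →* FP K := CoprodI.lift fun i => (ι i).comp D.σ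

/-- the map `K * K → P * P` -/
def fr : FP K →* FP (Multiplicative (ℤ × ℤ)) := CoprodI.lift fun i => (ι i).comp D.ρ

theorem fs_ι (i : Bool) (v : Multiplicative (ℤ × ℤ)) : fs D (ι i v) = ι i (D.σ v) :=
  CoprodI.lift_of _ _

theorem fr_ι (i : Bool) (k : K) :
    fr D (ι i k) = ι (K := Multiplicative (ℤ × ℤ)) i (D.ρ k) := CoprodI.lift_of _ _

theorem fr_fs (x : FP (Multiplicative (ℤ × ℤ))) : fr D (fs D x) = x := by
  have h : (fr D).comp (fs D) = MonoidHom.id _ := by
    refine CoprodI.ext_hom _ _ fun i => MonoidHom.ext fun v => ?_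
    change fr D (fs D (ι i v)) = ι i v
    rw [fs_ι, fr_ι, D.ρσ]
  exact congrArg (fun f : FP (Multiplicative (ℤ × ℤ)) →* FP (Multiplicative (ℤ × ℤ)) => f x) h

theorem fs_fr (x : FP K) : fs D (fr D x) = EE D.e x := by
  have h : (fs D).comp (fr D) = EE D.e := by
    refine CoprodI.ext_hom _ _ fun i => MonoidHom.ext fun k => ?_
    change fs D (fr D (ι i k)) = EE D.e (ι i k)
    rw [fr_ι, fs_ι, EE_ι]
    rfl
  exact congrArg (fun f : FP K →* FP K => f x) h

theorem range_fs : (fs D).range = D.H := by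
  apply le_antisymm
  · rintro _ ⟨x, rfl⟩
    refine (mem_HH D.e_idem).2 ?_
    rw [← fs_fr, fr_fs]
  · intro x hx
    have h := (mem_HH D.e_idem).1 hx
    exact ⟨fr D x, (fs_fr D x).trans h⟩

theorem iso_H : Nonempty (D.H ≃* FP (Multiplicative (ℤ × ℤ))) := by
  have hinj : Function.Injective (fs D) := Function.LeftInverse.injective (fr_fs D)
  exact ⟨((MulEquiv.subgroupCongr (range_fs D)).symm).trans (MonoidHom.ofInjective hinj).symm⟩

/-- **The general statement.** -/
theorem counter : Counter D.H :=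
  ⟨iso_H D, ⟨D.r, D.r_retr⟩, D.H_mal, D.A, D.B, D.almostMalnormal, ⟨D.morseRay.cls⟩,
    D.retractHyp.limitSet_isMorseBoundary, D.not_he⟩

/-! ### The invariant -/

/-- Some element `g` with `g ^ n = 1` has a nontrivial image under a homomorphism to `ℤ/n`. -/
def Detects (G : Type) [Group G] (n : ℕ) : Prop :=
  ∃ (g : G) (f : G →* Multiplicative (ZMod n)), g ^ n = 1 ∧ f g ≠ 1

theorem detects_congr {G G' : Type} [Group G] [Group G'] (e : G ≃* G') (n : ℕ)
    (h : Detects G n) : Detects G' n := by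
  obtain ⟨g, f, h1, h2⟩ := h
  refine ⟨e g, f.comp (e.symm : G' →* G), by rw [← map_pow, h1, map_one], ?_⟩
  simpa using h2

theorem pow_card_zmod (n : ℕ) (x : Multiplicative (ZMod n)) : x ^ n = 1 := by
  apply Multiplicative.toAdd.injective
  rw [toAdd_pow, toAdd_one, nsmul_eq_mul, ZMod.natCast_self, zero_mul]

theorem not_detects {p q : ℕ} (hpq : Nat.Coprime p q) (hp : p ≠ 0) (ha : D.a ^ q = 1) :
    ¬ Detects (FP K) p := by
  rintro ⟨g, f, hg, hfg⟩
  -- homomorphisms of `K` to `ℤ/p` factor through `ρ`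
  have key : ∀ h : K →* Multiplicative (ZMod p), ∀ k : K, h k = h (D.σ (D.ρ k)) := by
    intro h k
    have h1 : h D.a = 1 := by
      have e1 : (h D.a) ^ q = 1 := by rw [← map_pow, ha, map_one]
      have e2 : (h D.a) ^ p = 1 := pow_card_zmod p _
      have e3 : orderOf (h D.a) ∣ Nat.gcd p q :=
        Nat.dvd_gcd (orderOf_dvd_of_pow_eq_one e2) (orderOf_dvd_of_pow_eq_one e1)
      rw [hpq] at e3
      exact orderOf_eq_one_iff.1 (Nat.dvd_one.1 e3)
    have h2 : h = (h.comp D.σ).comp D.ρ := by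
      refine MonoidHom.eq_of_eqOn_dense D.gen ?_
      rintro x (rfl | rfl | rfl)
      · change h D.a = h (D.σ (D.ρ D.a))
        rw [D.ρa, map_one, map_one, h1]
      · change h (D.σ _) = h (D.σ (D.ρ (D.σ _)))
        rw [D.ρσ]
      · change h (D.σ _) = h (D.σ (D.ρ (D.σ _)))
        rw [D.ρσ]
    exact congrArg (fun f : K →* Multiplicative (ZMod p) => f k) h2
  -- the projection to `ℤ² × ℤ²`
  let π : FP K →* Multiplicative (ℤ × ℤ) × Multiplicative (ℤ × ℤ) :=
    (D.φ true).prod (D.φ false)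
  let F : Multiplicative (ℤ × ℤ) × Multiplicative (ℤ × ℤ) →* Multiplicative (ZMod p) :=
    ((f.comp ((ι true).comp D.σ)).comp (MonoidHom.fst _ _)) *
      ((f.comp ((ι false).comp D.σ)).comp (MonoidHom.snd _ _))
  have hF : f = F.comp π := by
    refine CoprodI.ext_hom _ _ fun i => MonoidHom.ext fun k => ?_
    change f (ι i k) = f (ι true (D.σ (D.φ true (ι i k)))) * f (ι false (D.σ (D.φ false (ι i k))))
    have hk := key (f.comp (ι i)) k
    cases i
    · rw [D.φ_same, D.φ_ne (by simp), map_one, map_one, map_one, one_mul]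
      exact hk
    · rw [D.φ_same, D.φ_ne (by simp), map_one, map_one, map_one, mul_one]
      exact hk
  have hπ : π g = 1 := by
    have h1 : (π g) ^ p = 1 := by rw [← map_pow, hg, map_one]
    have tf : ∀ v : Multiplicative (ℤ × ℤ), v ^ p = 1 → v = 1 := by
      intro v hv
      have h2 := congrArg Multiplicative.toAdd hv
      rw [toAdd_pow, toAdd_one] at h2
      apply Multiplicative.toAdd.injective
      rw [toAdd_one]
      exact (smul_eq_zero.1 h2).resolve_left hp
    exact Prod.ext (tf _ (congrArg Prod.fst h1)) (tf _ (congrArg Prod.snd h1))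
  exact hfg (by rw [hF, MonoidHom.comp_apply, hπ, map_one])

end Pool.Agent.H68.MB
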