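import Pool.Graph.R_seed8.H659R3.MorseLim.Example

/-!
# The groups `K(R, α, β)` of maps `t ↦ αˣ βʸ t + c` of a commutative ring `R`
-/

set_option autoImplicit false

namespace Pool.Agent.H68.MB

open Pool.Agent.H659R3.MorseLim

/-- The map `t ↦ αˣ βʸ t + c` of the ring `R`. -/
@[ext] structure Aff (R : Type) [CommRing R] (α β : Rˣ) where
  c : R
  x : ℤ
  y : ℤ

namespace Aff

variable {R : Type} [CommRing R] {α β : Rˣ}

/-- The multiplier `αˣ βʸ`. -/
def u (α β : Rˣ) (x y : ℤ) : R := ((α ^ x * β ^ y : Rˣ) : R)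

theorem u_add (x y x' y' : ℤ) : u α β (x + x') (y + y') = u α β x y * u α β x' y' := by
  rw [u, u, u, zpow_add, zpow_add, ← Units.val_mul]
  congr 1
  exact mul_mul_mul_comm _ _ _ _

theorem u_zero : u α β 0 0 = 1 := by simp [u]

theorem u_neg (x y : ℤ) : u α β (-x) (-y) * u α β x y = 1 := by
  rw [← u_add]; simp [u_zero]

instance : Mul (Aff R α β) := ⟨fun k l => ⟨k.c + u α β k.x k.y * l.c, k.x + l.x, k.y + l.y⟩⟩
instance : One (Aff R α β) := ⟨⟨0, 0, 0⟩⟩
instance : Inv (Aff R α β) := ⟨fun k => ⟨-(u α β (-k.x) (-k.y) * k.c), -k.x, -k.y⟩⟩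

@[simp] theorem mul_c (k l : Aff R α β) : (k * l).c = k.c + u α β k.x k.y * l.c := rfl
@[simp] theorem mul_x (k l : Aff R α β) : (k * l).x = k.x + l.x := rfl
@[simp] theorem mul_y (k l : Aff R α β) : (k * l).y = k.y + l.y := rfl
@[simp] theorem one_c : (1 : Aff R α β).c = 0 := rfl
@[simp] theorem one_x : (1 : Aff R α β).x = 0 := rfl
@[simp] theorem one_y : (1 : Aff R α β).y = 0 := rfl
@[simp] theorem inv_c (k : Aff R α β) : (k⁻¹).c = -(u α β (-k.x) (-k.y) * k.c) := rfl
@[simp] theorem inv_x (k : Aff R α β) : (k⁻¹).x = -k.x := rfl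
@[simp] theorem inv_y (k : Aff R α β) : (k⁻¹).y = -k.y := rfl

instance : Group (Aff R α β) := Group.ofLeftAxioms
  (by
    intro k l m
    ext
    · simp only [mul_c, mul_x, mul_y, u_add]; ring
    · simp only [mul_x]; ring
    · simp only [mul_y]; ring)
  (by
    intro k
    ext <;> simp [u_zero])
  (by
    intro k
    ext <;> simp)

/-- The inclusion of `ℤ²`. -/
def σ' : Multiplicative (ℤ × ℤ) →* Aff R α β where
  toFun v := ⟨0, v.toAdd.1, v.toAdd.2⟩
  map_one' := rfl
  map_mul' v w := by ext <;> simp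

/-- The projection to `ℤ²`. -/
def ρ' : Aff R α β →* Multiplicative (ℤ × ℤ) where
  toFun k := .ofAdd (k.x, k.y)
  map_one' := rfl
  map_mul' _ _ := rfl

/-- The three generators `t ↦ t + 1`, `t ↦ α t` and `t ↦ β t`. -/
def gens (R : Type) [CommRing R] (α β : Rˣ) : Set (Aff R α β) :=
  {⟨1, 0, 0⟩, σ' (.ofAdd (1, 0)), σ' (.ofAdd (0, 1))}

/-- The group `K(R, α, β)` generated by the maps `t ↦ t + 1`, `t ↦ α t` and `t ↦ β t` of `R`. -/
abbrev KK (R : Type) [CommRing R] (α β : Rˣ) : Type := Subgroup.closure (gens R α β)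

theorem σ'_mem (v : Multiplicative (ℤ × ℤ)) : σ' v ∈ Subgroup.closure (gens R α β) := by
  have e : v = (.ofAdd (1, 0) : Multiplicative (ℤ × ℤ)) ^ v.toAdd.1 *
      (.ofAdd (0, 1) : Multiplicative (ℤ × ℤ)) ^ v.toAdd.2 := by
    apply Multiplicative.toAdd.injective
    rw [toAdd_mul, toAdd_zpow, toAdd_zpow]
    ext <;> simp
  rw [e, map_mul, map_zpow, map_zpow]
  exact mul_mem (zpow_mem (Subgroup.subset_closure (by simp [gens])) _)
    (zpow_mem (Subgroup.subset_closure (by simp [gens])) _)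

/-- The inclusion of `ℤ²` in `K`. -/
def σK : Multiplicative (ℤ × ℤ) →* KK R α β := σ'.codRestrict _ σ'_mem

/-- The element `a : t ↦ t + 1`. -/
def aK : KK R α β := ⟨⟨1, 0, 0⟩, Subgroup.subset_closure (Set.mem_insert _ _)⟩

/-- Multiplication by `1 - αˣ βʸ` is injective on `R` for all `(x, y) ≠ (0, 0)`. -/
def Reg (α β : Rˣ) : Prop :=
  ∀ x y : ℤ, (x, y) ≠ (0, 0) → ∀ c : R, (1 - ((α ^ x * β ^ y : Rˣ) : R)) * c = 0 → c = 0

/-- The data for the group `K`. -/
def dataKK [Nontrivial R] (hreg : Reg α β) : KData (KK R α β) where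
  σ := σK
  ρ := ρ'.comp (Subgroup.subtype _)
  a := aK
  ρσ _ := rfl
  ρa := rfl
  a_ne h := by
    have := congrArg (fun k : KK R α β => k.1.c) h
    exact one_ne_zero (α := R) this
  gen := by
    have := Subgroup.closure_closure_coe_preimage (k := gens R α β)
    rw [← this]
    congr 1
    ext k
    constructor
    · rintro (h | h | h)
      · exact Or.inl (congrArg Subtype.val h)
      · exact Or.inr (Or.inl (congrArg Subtype.val h))
      · exact Or.inr (Or.inr (congrArg Subtype.val h))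
    · rintro (h | h | h)
      · exact Or.inl (Subtype.ext h)
      · exact Or.inr (Or.inl (Subtype.ext h))
      · exact Or.inr (Or.inr (Subtype.ext h))
  mal k p hk hp hp1 h := by
    have h1 := congrArg (fun k : KK R α β => k.1.c) h
    have hpc : p.1.c = 0 := (congrArg (fun k : KK R α β => k.1.c) hp).symm
    have hc : k.1.c ≠ 0 := by
      intro hc
      apply hk
      apply Subtype.ext
      ext
      · exact hc.symm
      · rfl
      · rfl
    have h2 : (0 : R) = k.1.c - u α β p.1.x p.1.y * k.1.c := by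
      have e : (0 : R) = (k.1 * p.1 * k.1⁻¹).c := h1
      rw [e]
      simp only [mul_c, mul_x, mul_y, inv_c, u_add, hpc]
      have := u_neg (α := α) (β := β) k.1.x k.1.y
      linear_combination (-(u α β p.1.x p.1.y) * k.1.c) * this
    have hxy : (p.1.x, p.1.y) = (0, 0) := by
      by_contra hne
      refine hc (hreg _ _ hne _ ?_)
      change (1 - u α β p.1.x p.1.y) * k.1.c = 0
      linear_combination -h2
    apply hp1
    apply Subtype.ext
    ext
    · exact hpc
    · exact congrArg Prod.fst hxy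
    · exact congrArg Prod.snd hxy
  comm v := by
    apply Subtype.ext
    ext
    · simp [σK, σ', u_zero, aK]; ring
    · simp [σK, σ', aK]
    · simp [σK, σ', aK]

end Aff

end Pool.Agent.H68.MB
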